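import Pool.Agent.J6H81.Cube.Lower

/-!
# MP_416390_gt: maximal-volume projections of the cube need not have equal edge lengths

For a `k`-dimensional subspace `H` of `ℝⁿ` let `F(H)` be the `k`-dimensional volume of the
orthogonal projection of the cube `[0,1]ⁿ` onto `H`. The question is whether the maximum of `F`
over the `k`-dimensional subspaces is always attained at some `H` for which the projections of
all the edges have the same length, that is `|P_H e_1| = ... = |P_H e_n|`.

The answer is no, for `k = 3` and `n = 7`: there is a three-dimensional subspace `H₀` of `ℝ⁷` with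
`F(H) < F(H₀)` for every three-dimensional `H` with `|P_H e_1| = ... = |P_H e_7|`. In fact
`F(H)² ≤ 31.4` for all such `H`, and `F(H₀)² > 31.4` for the row space `H₀` of a `3 × 7` integer
matrix.

Proof. `F(H) = ∑_{i<j<k} |det(v_i, v_j, v_k)|` for the columns `v_i = P_H e_i`. The signs of the
35 minors form one of eleven patterns, up to relabelling and changes of sign of the `v_i`. For
each pattern `χ` there is an exact positive semidefinite certificate (with multipliers for the
three-term Grassmann-Plücker relations) of `(∑ χ_S p_S)² ≤ 31.4 ∑ p_S²`; for one of the patterns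
the certificate also uses that the norms are equal.
-/

namespace Pool.Agent.Results.MP_416390_gt.EqualEdgesFail

open MeasureTheory Module

section General

variable {E : Type} [NormedAddCommGroup E] [InnerProductSpace ℝ E] [FiniteDimensional ℝ E]
  [MeasurableSpace E] [BorelSpace E]

/-- The volume of the orthogonal projection of `S` onto the subspace `H`, measured in `H`. The
volume is the Lebesgue measure `measureSpaceOfInnerProductSpace` of the Euclidean space `H`, the
Haar measure of `H` for which the unit cube of an orthonormal basis of `H` has measure `1`. -/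
noncomputable def projVolume (H : Submodule ℝ E) (S : Set E) : ℝ :=
  ((@MeasureSpace.volume H measureSpaceOfInnerProductSpace)
    ((fun x => H.orthogonalProjectionOnto x) '' S)).toReal

/-- The length of the orthogonal projection of `x` onto the subspace `H`. -/
noncomputable def projLength (H : Submodule ℝ E) (x : E) : ℝ := ‖H.orthogonalProjectionOnto x‖

end General

/-- The linear subspaces of the Euclidean space `ℝⁿ`. -/
abbrev Sub (n : ℕ) : Type := Submodule ℝ (EuclideanSpace ℝ (Fin n))

/-- The dimension of a linear subspace. -/
noncomputable def dim {n : ℕ} (H : Sub n) : ℕ := finrank ℝ H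

/-- The cube `[0,1]ⁿ` in the Euclidean space `ℝⁿ`. -/
def cube (n : ℕ) : Set (EuclideanSpace ℝ (Fin n)) := {x | ∀ i, 0 ≤ x i ∧ x i ≤ 1}

/-- `F(H)`: the volume of the orthogonal projection of the cube `[0,1]ⁿ` onto `H`. -/
noncomputable def F {n : ℕ} (H : Sub n) : ℝ := projVolume H (cube n)

/-- The projections `P_H e_1, ..., P_H e_n` of the standard basis vectors have equal length. -/
def EqualEdges {n : ℕ} (H : Sub n) : Prop :=
  ∀ i j : Fin n, projLength H (EuclideanSpace.single i 1) =
    projLength H (EuclideanSpace.single j 1)

/-- **The maximal volume of three-dimensional projections of the seven-dimensional cube is not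
attained with equal edge lengths.** There is a three-dimensional subspace `H₀` of `ℝ⁷` with
`F(H) < F(H₀)` for all three-dimensional `H` with `|P_H e_1| = ... = |P_H e_7|`. Consequently it is
false that for all `1 ≤ k ≤ n` the maximum of `F` over the `k`-dimensional subspaces of `ℝⁿ` is
attained at some `H` with `|P_H e_1| = ... = |P_H e_n|`. -/
theorem result :
    (∃ H₀ : Sub 7, dim H₀ = 3 ∧ ∀ H : Sub 7, dim H = 3 → EqualEdges H → F H < F H₀) ∧
    ¬ (∀ k n : ℕ, 1 ≤ k → k ≤ n → ∃ H : Sub n, dim H = k ∧
      (∀ H' : Sub n, dim H' = k → F H' ≤ F H) ∧ EqualEdges H) := by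
  have key : ∀ H : Sub 7, dim H = 3 → EqualEdges H → F H < F J6H81.Cube.H0 := by
    intro H hH hE
    have h1 : F H ^ 2 ≤ 157 / 5 := J6H81.Cube.upper hH hE
    have h2 : 157 / 5 < F J6H81.Cube.H0 ^ 2 := J6H81.Cube.lower
    have h3 : 0 ≤ F J6H81.Cube.H0 := ENNReal.toReal_nonneg
    exact lt_of_pow_lt_pow_left₀ 2 h3 (lt_of_le_of_lt h1 h2)
  refine ⟨⟨J6H81.Cube.H0, J6H81.Cube.H0_finrank, key⟩, fun hall => ?_⟩
  obtain ⟨H, hH, hmax, hE⟩ := hall 3 7 (by norm_num) (by norm_num)
  exact absurd (hmax J6H81.Cube.H0 J6H81.Cube.H0_finrank) (not_le.2 (key H hH hE))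

end Pool.Agent.Results.MP_416390_gt.EqualEdgesFail
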